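import Pool.Agent.Lib.MP_de9697_co.Integral

/-!
# MP_de9697_co, Q2: the integral case

A one-sided kissing configuration in dimension 24 with integral inner products has at most
144855 points.
-/

namespace Pool.Agent.Results.MP_de9697_co.IntegralConfigurations

/-- A finite set `S` of points of norm 2 in 24-dimensional Euclidean space, pairwise at distance at
least 2 and with integral inner products, in a closed hemisphere, has at most 144855 points. -/
theorem result :
    144855 ∈ upperBounds
      {n : ℕ | ∃ S : Finset (EuclideanSpace ℝ (Fin 24)), S.card = n ∧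
        (∀ c ∈ S, ‖c‖ = 2) ∧
        (∀ c ∈ S, ∀ d ∈ S, c ≠ d → 2 ≤ dist c d) ∧
        (∀ c ∈ S, ∀ d ∈ S, ∃ k : ℤ, inner ℝ c d = (k : ℝ)) ∧
        ∃ u : EuclideanSpace ℝ (Fin 24), ‖u‖ = 1 ∧ ∀ c ∈ S, 0 ≤ inner ℝ c u} := by
  rintro n ⟨S, rfl, hn, hd, hint, u, hu, hcu⟩
  exact MPde9697.card_integral_two S hn hd hint u hu hcu

end Pool.Agent.Results.MP_de9697_co.IntegralConfigurations
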