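import Pool.Agent.Lib.MP_de9697_co.Leech

/-!
# MP_de9697_co, Q2: one-sided subconfigurations of the maximal kissing configurations

A kissing configuration of 196560 balls in dimension 24 (the largest possible number) contains a
one-sided subconfiguration of 144855 balls and none of more balls, and the halfspaces that attain
this number are the ones whose inner normal points to the centre of a ball.
-/

namespace Pool.Agent.Results.MP_de9697_co.MaximalConfigurations

/-- Let `X` be a set of 196560 points of norm 2 in 24-dimensional Euclidean space, pairwise at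
distance at least 2. The largest number of points of a subset of `X` lying in a closed hemisphere
is exactly 144855. For a unit vector `u`, exactly 144855 points of `X` have nonnegative inner
product with `u` if `2u` is a point of `X`, and fewer if not. -/
theorem result (X : Finset (EuclideanSpace ℝ (Fin 24))) (hcard : X.card = 196560)
    (hnorm : ∀ c ∈ X, ‖c‖ = 2) (hdist : ∀ c ∈ X, ∀ d ∈ X, c ≠ d → 2 ≤ dist c d) :
    IsGreatest
      {n : ℕ | ∃ S : Finset (EuclideanSpace ℝ (Fin 24)), S ⊆ X ∧ S.card = n ∧
        ∃ u : EuclideanSpace ℝ (Fin 24), ‖u‖ = 1 ∧ ∀ c ∈ S, 0 ≤ inner ℝ c u}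
      144855 ∧
    ∀ u : EuclideanSpace ℝ (Fin 24), ‖u‖ = 1 →
      ((2 : ℝ) • u ∈ X → {c | c ∈ X ∧ 0 ≤ inner ℝ c u}.ncard = 144855) ∧
      ((2 : ℝ) • u ∉ X → {c | c ∈ X ∧ 0 ≤ inner ℝ c u}.ncard < 144855) := by
  classical
  have hset : ∀ u : EuclideanSpace ℝ (Fin 24), {c | c ∈ X ∧ 0 ≤ inner ℝ c u}.ncard =
      (X.filter (fun c => 0 ≤ inner ℝ c u)).card := by
    intro u
    rw [← Set.ncard_coe_finset]
    congr 1
    ext c
    simp
  refine ⟨⟨?_, ?_⟩, ?_⟩
  · have hne : X.Nonempty := by
      rw [← Finset.card_pos, hcard]; norm_num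
    obtain ⟨e, he⟩ := hne
    refine ⟨X.filter (fun c => 0 ≤ inner ℝ c (MPde9697.hf e)), Finset.filter_subset _ _,
      MPde9697.card_hemi_mem hnorm hdist hcard he, MPde9697.hf e, MPde9697.hf_norm hnorm e he, ?_⟩
    intro c hc
    exact (Finset.mem_filter.1 hc).2
  · rintro n ⟨S, hS, rfl, u, hu, hcu⟩
    refine le_trans (Finset.card_le_card ?_) (MPde9697.card_hemi hnorm hdist hcard u hu)
    intro c hc
    exact Finset.mem_filter.2 ⟨hS hc, hcu c hc⟩
  · intro u hu
    rw [hset]
    constructor
    · intro h
      have h1 := MPde9697.card_hemi_mem hnorm hdist hcard h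
      have h2 : MPde9697.hf ((2 : ℝ) • u) = u := by
        unfold MPde9697.hf
        rw [smul_smul]; norm_num
      rwa [h2] at h1
    · intro h
      refine lt_of_le_of_ne (MPde9697.card_hemi hnorm hdist hcard u hu) (fun h1 => h ?_)
      obtain ⟨e, he, hue⟩ := MPde9697.mem_of_card hnorm hdist hcard u hu h1
      have h2 : (2 : ℝ) • u = e := by
        rw [hue]
        unfold MPde9697.hf
        rw [smul_smul]; norm_num
      rwa [h2]

end Pool.Agent.Results.MP_de9697_co.MaximalConfigurations
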