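import Pool.Agent.Lib.KissLP.Near
import Pool.Agent.Lib.KissLP.DFive
import Pool.Agent.Lib.KissLP.Half

set_option autoImplicit false

open Module

namespace Pool.Agent.Results.MP_de9697_co.SymmetricKissing

/-- A one-sided kissing configuration in `ℝ^n`: vectors of norm two, pairwise at distance at
least two, in a common closed half-space whose boundary contains the origin. -/
def OneSided (n : ℕ) (S : Finset (EuclideanSpace ℝ (Fin n))) : Prop :=
  (∀ c ∈ S, ‖c‖ = 2) ∧ (∀ c ∈ S, ∀ d ∈ S, c ≠ d → 2 ≤ dist c d) ∧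
    ∃ u : EuclideanSpace ℝ (Fin n), ‖u‖ = 1 ∧ ∀ c ∈ S, 0 ≤ (inner ℝ c u : ℝ)

/-- The union of `S` and `-S` is again a kissing configuration: different points of the two
sets have distance at least two. -/
def Symmetrizable {n : ℕ} (S : Finset (EuclideanSpace ℝ (Fin n))) : Prop :=
  ∀ c ∈ S, ∀ d ∈ S, c ≠ -d → 2 ≤ dist c (-d)

open Classical in
/-- The number of points of `S` whose antipode also belongs to `S`. -/
noncomputable def antip {n : ℕ} (S : Finset (EuclideanSpace ℝ (Fin n))) : ℕ :=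
  (S.filter (fun c => -c ∈ S)).card

open Classical in
/-- The ordered pairs of points of `S` whose angle lies strictly between 120 and 180
degrees. -/
noncomputable def wide {n : ℕ} (S : Finset (EuclideanSpace ℝ (Fin n))) :
    Finset (EuclideanSpace ℝ (Fin n) × EuclideanSpace ℝ (Fin n)) :=
  (S ×ˢ S).filter (fun p => -4 < (inner ℝ p.1 p.2 : ℝ) ∧ (inner ℝ p.1 p.2 : ℝ) < -2)

theorem result :
    IsGreatest {N : ℕ | ∃ S : Finset (EuclideanSpace ℝ (Fin 5)),
      OneSided 5 S ∧ Symmetrizable S ∧ S.card = N} 32 ∧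
    (∀ S : Finset (EuclideanSpace ℝ (Fin 5)), OneSided 5 S →
      antip S ≤ 24 ∧ (antip S = 24 → S.card ≤ 32) ∧
      ((∃ x, ∀ p ∈ wide S, p.1 = x ∨ p.2 = x) → S.card ≤ 32) ∧
      (2 * (S.card : ℤ) - antip S) * (2 * (S.card : ℤ) - antip S - 42) ≤
        84 * ((wide S).card : ℤ)) := by
  classical
  have hE5 : finrank ℝ (EuclideanSpace ℝ (Fin 5)) = 5 := finrank_euclideanSpace_fin
  have hne : ∀ {n : ℕ} {u : EuclideanSpace ℝ (Fin n)}, ‖u‖ = 1 → u ≠ 0 := by
    intro n u hu h
    rw [h, norm_zero] at hu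
    norm_num at hu
  refine ⟨⟨?_, ?_⟩, ?_⟩
  · obtain ⟨S, h1, h2, h3, h4, h5⟩ := KissLP.dfive
    exact ⟨S, ⟨h2, h3, h5⟩, h4, h1⟩
  · rintro N ⟨S, ⟨h1, h2, u, hu, h3⟩, h4, rfl⟩
    rw [← KissLP.half_card]
    exact KissLP.dim5_sym hE5 (KissLP.half_unit h1) (KissLP.half_sep h1 h2) (hne hu)
      (KissLP.half_pole h3) (KissLP.half_conf_empty h1 h4)
  · rintro S ⟨h1, h2, u, hu, h3⟩
    have ha : antip S = (KissLP.anti (KissLP.half S)).card := by
      rw [KissLP.half_anti_card]
      unfold antip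
      congr
    have hw : (wide S).card = (KissLP.conf (KissLP.half S)).card := by
      rw [KissLP.half_conf_card]
      rfl
    have hcard := KissLP.half_card S
    refine ⟨?_, ?_, ?_, ?_⟩
    · rw [ha]
      exact KissLP.dim5_anti hE5 (KissLP.half_unit h1) (KissLP.half_sep h1 h2) (hne hu)
        (KissLP.half_pole h3)
    · intro h
      rw [ha] at h
      rw [← hcard]
      exact KissLP.dim5_full hE5 (KissLP.half_unit h1) (KissLP.half_sep h1 h2) hu
        (KissLP.half_pole h3) h
    · rintro ⟨x, hx⟩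
      rw [← hcard]
      refine KissLP.dim5_near hE5 (KissLP.half_unit h1) (KissLP.half_sep h1 h2) hu
        (KissLP.half_pole h3) ((1 / 2 : ℝ) • x) ?_
      rintro ⟨a, b⟩ hab
      unfold KissLP.conf at hab
      rw [Finset.mem_filter, Finset.mem_product] at hab
      obtain ⟨⟨haS, hbS⟩, h4, h5⟩ := hab
      simp only at haS hbS h4 h5 ⊢
      obtain ⟨c, hc, rfl⟩ := KissLP.mem_half.mp haS
      obtain ⟨d, hd, rfl⟩ := KissLP.mem_half.mp hbS
      rw [KissLP.half_inner] at h4 h5
      have h6 : (c, d) ∈ wide S := by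
        unfold wide
        rw [Finset.mem_filter, Finset.mem_product]
        exact ⟨⟨hc, hd⟩, by simp only; linarith, by simp only; linarith⟩
      rcases hx _ h6 with h7 | h7
      · left
        rw [← h7]
      · right
        rw [← h7]
    · have h4 := KissLP.dim5_quad hE5 (KissLP.half_unit h1) (KissLP.half_sep h1 h2)
      rw [hcard, ← ha, ← hw] at h4
      have h5 : ((2 * (S.card : ℤ) - antip S) * (2 * (S.card : ℤ) - antip S - 42) : ℝ) ≤
          84 * ((wide S).card : ℤ) := by
        push_cast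
        nlinarith
      exact_mod_cast h5

end Pool.Agent.Results.MP_de9697_co.SymmetricKissing
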