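import Pool.Agent.Lib.MP_de9697_co.Cert

/-!
# MP_de9697_co, Q2: an upper bound for the one-sided kissing number in dimension 24

Every one-sided kissing configuration in dimension 24 has at most 160224 balls.
-/

namespace Pool.Agent.Results.MP_de9697_co.UpperBound

/-- `B(24) ≤ 160224`: if `n` is the number of points of a finite set `S` of points of norm 2 in
24-dimensional Euclidean space, pairwise at distance at least 2, all in one closed hemisphere
(nonnegative inner product with some unit vector `u`), then `n ≤ 160224`. -/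
theorem result :
    160224 ∈ upperBounds
      {n : ℕ | ∃ S : Finset (EuclideanSpace ℝ (Fin 24)), S.card = n ∧
        (∀ c ∈ S, ‖c‖ = 2) ∧
        (∀ c ∈ S, ∀ d ∈ S, c ≠ d → 2 ≤ dist c d) ∧
        ∃ u : EuclideanSpace ℝ (Fin 24), ‖u‖ = 1 ∧ ∀ c ∈ S, 0 ≤ inner ℝ c u} := by
  rintro n ⟨S, rfl, hn, hd, u, hu, hcu⟩
  exact MPde9697.card_le_24 S hn hd u hu hcu

end Pool.Agent.Results.MP_de9697_co.UpperBound
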